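import Mathlib
import Pool.Agent.N141.SG.Near

set_option autoImplicit false

/-!
# The plane: all numbers of points at once, and thin sequences of near-uniform schemes

(1) A positive proportion of ALL multiplicities `m` have the following property: for EVERY number
`n ≥ 10` of general points and EVERY degree `d` the scheme of `n` points of multiplicity `m`
imposes maximal conditions. The same holds for the multiplicities
`m = ⌊P(t)⌋` of every thin sequence given by a generalised polynomial `P` with a non-integral leading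
exponent, where `t` runs through the integers, and also through the primes.

(2) Let `n ≥ 10`. All schemes of `n` general points with multiplicities `m`, `m + 1` and with
sum of the multiplicities `W` impose maximal conditions in every degree, for all sums `W = ⌊P(t)⌋` of such
a thin sequence outside of a proportion of at most `bad n < 1` of the integers `t`, and of the primes
`t`; `bad n = 0` if `n` is a square and `bad 10 < 0.163`.
-/

namespace Pool.Agent.Results.MP_1dafdd_ag.PlaneAllNumbersAtOnce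

open MvPolynomial Filter

/-- Forms of degree `d` vanishing to order at least `w i` at the points `(P i 0 : P i 1 : 1)`. -/
noncomputable def forms {n : ℕ} (P : Fin n → Fin 2 → ℂ) (d : ℕ) (w : Fin n → ℕ) :
    Submodule ℂ (MvPolynomial (Fin 3) ℂ) :=
  homogeneousSubmodule (Fin 3) ℂ d ⊓
    Submodule.restrictScalars ℂ
      (⨅ i : Fin n, (Ideal.span {X 0 - C (P i 0) * X 2, X 1 - C (P i 1) * X 2} :
        Ideal (MvPolynomial (Fin 3) ℂ)) ^ (w i))

/-- The scheme of the points `P i` with the multiplicities `w i` imposes maximal conditions in the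
degree `d`. -/
def Imposes {n : ℕ} (P : Fin n → Fin 2 → ℂ) (d : ℕ) (w : Fin n → ℕ) : Prop :=
  (Module.finrank ℂ ↥(forms P d w) : ℤ) =
    max 0 (((d + 2).choose 2 : ℤ) - ∑ i, ((w i + 1).choose 2 : ℤ))

/-- For general points (one nonempty open set for all degrees) the scheme with the multiplicities `w`
imposes maximal conditions in every degree. -/
def Maximal {n : ℕ} (w : Fin n → ℕ) : Prop :=
  ∃ F : MvPolynomial (Fin n × Fin 2) ℂ, F ≠ 0 ∧ ∀ P : Fin n → Fin 2 → ℂ,
    MvPolynomial.eval (fun ij : Fin n × Fin 2 => P ij.1 ij.2) F ≠ 0 → ∀ d : ℕ, Imposes P d w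

/-- The multiplicity `m ≥ 1` is good for every number `n ≥ 10` of points and every degree. -/
def Holds (m : ℕ) : Prop := 1 ≤ m ∧ ∀ n : ℕ, 10 ≤ n → Maximal (fun _ : Fin n => m)

/-- All vectors of `n` positive multiplicities with sum `W` which take at most two consecutive values
`m`, `m + 1` are good in every degree. -/
def Good (n W : ℕ) : Prop :=
  ∀ m : ℕ, 0 < m → ∀ w : Fin n → ℕ, (∀ i, w i = m ∨ w i = m + 1) → ∑ i, w i = W → Maximal w

/-- The coefficients `a` and the exponents `F` of a generalised polynomial `∑ x ∈ F, a x * t ^ x` with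
leading exponent `c > 0`, not an integer, and positive leading coefficient. -/
def Adm (F : Finset ℝ) (a : ℝ → ℝ) (c : ℝ) : Prop :=
  c ∈ F ∧ (∀ x ∈ F, x ≤ c) ∧ 0 < c ∧ (∀ k : ℕ, c ≠ k) ∧ 0 < a c

/-- The members `⌊∑ x ∈ F, a x * t ^ x⌋` of the thin sequence. -/
noncomputable def mult (F : Finset ℝ) (a : ℝ → ℝ) (t : ℕ) : ℕ := ⌊∑ x ∈ F, a x * (t : ℝ) ^ x⌋₊

open Classical in
/-- The bound for the proportion of the bad sums for `n` points. -/
noncomputable def bad (n : ℕ) : ℝ :=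
  if IsSquare n then 0
  else (min (√(n : ℝ) - 3) (2 / 3 + 9 / (4 * √(n : ℝ))) +
    min (√(n : ℝ) - 3) (2 / 3 + 1 / (4 * √(n : ℝ)))) / 2

theorem maximal_of {n : ℕ} {w : Fin n → ℕ} (h : Pool.Agent.N141.SG.ExN w) : Maximal w := by
  obtain ⟨F, hF, hF'⟩ := h
  refine ⟨F.map (algebraMap ℚ ℂ), Pool.Agent.H932R3.map_ne_zero_of hF, fun P hP d => ?_⟩
  rw [MvPolynomial.eval_map] at hP
  have h1 := hF' P hP d
  unfold Pool.Agent.H932R3.ExpDim at h1
  unfold Imposes forms
  rw [h1]
  have e : ∑ i, ((w i + 1).choose 2 : ℤ) = ((∑ i, (w i + 1).choose 2 : ℕ) : ℤ) := by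
    push_cast
    rfl
  rw [e]
  omega

theorem bad_ten : bad 10 < 0.163 := by
  have h1 : √((10 : ℕ) : ℝ) < 3.163 := by
    rw [Real.sqrt_lt' (by norm_num)]
    norm_num
  have h0 : ¬ IsSquare 10 := by
    rintro ⟨k, hk⟩
    have : k ≤ 3 := by nlinarith
    interval_cases k <;> omega
  unfold bad
  rw [if_neg h0]
  have h2 := min_le_left (√((10 : ℕ) : ℝ) - 3) (2 / 3 + 9 / (4 * √((10 : ℕ) : ℝ)))
  have h3 := min_le_left (√((10 : ℕ) : ℝ) - 3) (2 / 3 + 1 / (4 * √((10 : ℕ) : ℝ)))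
  linarith

theorem holds_of {m : ℕ} (hm : 1 ≤ m) (h : Pool.Agent.N141.SG.Tgt (m : ℕ)) : Holds m :=
  ⟨hm, fun _ hn => maximal_of (w := fun _ => m) (Pool.Agent.N141.SG.every h hm hn)⟩

theorem good_of {n W : ℕ} (h : Pool.Agent.N141.SG.GoodN n W) : Good n W :=
  fun m hm w hw hsum => maximal_of (h m hm w hw hsum)

/-- counting in subsets -/
theorem ncard_le {s : Finset ℕ} {p q : ℕ → Prop} (h : ∀ n ∈ s, p n → q n) :
    ({n : ℕ | n ∈ s ∧ p n}.ncard : ℝ) ≤ ({n : ℕ | n ∈ s ∧ q n}.ncard : ℝ) := by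
  have h1 : {n : ℕ | n ∈ s ∧ p n} ⊆ {n : ℕ | n ∈ s ∧ q n} := fun n hn => ⟨hn.1, h n hn.1 hn.2⟩
  exact_mod_cast Set.ncard_le_ncard h1 ((Finset.finite_toSet s).subset fun n hn => hn.1)

/-- **Main result.** -/
theorem result :
    -- a positive proportion of all multiplicities: all numbers of points and all degrees
    (∀ᶠ N : ℕ in atTop, 1 / 10000 ^ 22 * (N : ℝ) ≤
      ({m : ℕ | m ∈ Finset.Ioc N (2 * N) ∧ Holds m}.ncard : ℝ)) ∧
    -- thin sequences of multiplicities
    (∀ (F : Finset ℝ) (a : ℝ → ℝ) (c : ℝ), Adm F a c → ∀ᶠ N : ℕ in atTop,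
      1 / 10000 ^ 22 * ((Finset.Ioc N (2 * N)).card : ℝ) ≤
        ({t : ℕ | t ∈ Finset.Ioc N (2 * N) ∧ Holds (mult F a t)}.ncard : ℝ) ∧
      1 / 10000 ^ 22 * (((Finset.Ioc N (2 * N)).filter Nat.Prime).card : ℝ) ≤
        ({t : ℕ | t ∈ (Finset.Ioc N (2 * N)).filter Nat.Prime ∧ Holds (mult F a t)}.ncard : ℝ)) ∧
    -- near-uniform vectors, thin sequences of the sums
    (∀ n : ℕ, 10 ≤ n → ∀ (F : Finset ℝ) (a : ℝ → ℝ) (c : ℝ), Adm F a c → ∀ δ : ℝ, 0 < δ →
      ∀ᶠ N : ℕ in atTop,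
      ({t : ℕ | t ∈ Finset.Ioc N (2 * N) ∧ ¬ Good n (mult F a t)}.ncard : ℝ) ≤
        (bad n + δ) * ((Finset.Ioc N (2 * N)).card : ℝ) ∧
      ({t : ℕ | t ∈ (Finset.Ioc N (2 * N)).filter Nat.Prime ∧ ¬ Good n (mult F a t)}.ncard : ℝ) ≤
        (bad n + δ) * (((Finset.Ioc N (2 * N)).filter Nat.Prime).card : ℝ)) ∧
    (∀ n : ℕ, 10 ≤ n → bad n < 1) ∧ bad 10 < 0.163 := by
  refine ⟨?_, fun F a c h => ?_, fun n hn F a c h δ hδ => ?_, fun n hn =>
    Pool.Agent.N141.SG.badN_lt hn, bad_ten⟩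
  · filter_upwards [Pool.Agent.N141.SG.tgt_ints] with N hN
    exact hN.trans (ncard_le fun m hm h => holds_of (by
      have := (Finset.mem_Ioc.1 hm).1
      omega) h)
  · filter_upwards [Pool.Agent.N141.SG.tgt_thin (F := F) (a := a) (c := c) h] with N hN
    exact ⟨hN.1.trans (ncard_le fun t _ ht => holds_of ht.1 ht.2),
      hN.2.trans (ncard_le fun t _ ht => holds_of ht.1 ht.2)⟩
  · filter_upwards [Pool.Agent.N141.SG.near_one hn (F := F) (a := a) (c := c) h hδ] with N hN
    exact ⟨(ncard_le fun t _ ht h1 => ht (good_of h1)).trans hN.1,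
      (ncard_le fun t _ ht h1 => ht (good_of h1)).trans hN.2⟩

end Pool.Agent.Results.MP_1dafdd_ag.PlaneAllNumbersAtOnce
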