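import Mathlib
import Pool.Agent.N141.SG.Near
import Pool.Agent.N141.SG.Seq1

set_option autoImplicit false

/-!
# The SHGH conjecture for all numbers of points and degrees at once: bounded gaps in progressions

Call a multiplicity `m` good if for EVERY number `n ≥ 10` of general points and EVERY degree `d` the
class `(d; m, ..., m)` has `dim (D) = edim (D)`. For every modulus `q` there is a `K` such that every
interval of length `K` holds a good multiplicity of every residue class modulo `q`.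
-/

namespace Pool.Agent.Results.MP_6e81d8_ag.BoundedGapsInProgressions

open MvPolynomial Filter

/-- Forms of degree `d` vanishing to order at least `w i` at the points `(P i 0 : P i 1 : 1)`. -/
noncomputable def forms {n : ℕ} (P : Fin n → Fin 2 → ℂ) (d : ℕ) (w : Fin n → ℕ) :
    Submodule ℂ (MvPolynomial (Fin 3) ℂ) :=
  homogeneousSubmodule (Fin 3) ℂ d ⊓
    Submodule.restrictScalars ℂ
      (⨅ i : Fin n, (Ideal.span {X 0 - C (P i 0) * X 2, X 1 - C (P i 1) * X 2} :
        Ideal (MvPolynomial (Fin 3) ℂ)) ^ (w i))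

/-- The dimension of the linear system of the plane curves of degree `d` with multiplicities at
least `w i` at the points `P i`. -/
noncomputable def dimension {n : ℕ} (P : Fin n → Fin 2 → ℂ) (d : ℕ) (w : Fin n → ℕ) : ℤ :=
  (Module.finrank ℂ ↥(forms P d w) : ℤ) - 1

/-- The virtual dimension. -/
def vdim {n : ℕ} (d : ℕ) (w : Fin n → ℕ) : ℤ :=
  ((d + 2).choose 2 : ℤ) - 1 - ∑ i, ((w i + 1).choose 2 : ℤ)

/-- For points `P` of a nonempty open set (the complement of a hypersurface `F = 0` of the space of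
all `P`) the dimension is the expected one for every degree `d`. -/
def EveryDegree {n : ℕ} (w : Fin n → ℕ) : Prop :=
  ∃ F : MvPolynomial (Fin n × Fin 2) ℂ, F ≠ 0 ∧
    ∀ P : Fin n → Fin 2 → ℂ, eval (fun ij : Fin n × Fin 2 => P ij.1 ij.2) F ≠ 0 →
      ∀ d : ℕ, dimension P d w = max (vdim d w) (-1)

/-- The multiplicity `m ≥ 1` is good for every number `n ≥ 10` of points and every degree. -/
def Holds (m : ℕ) : Prop := 1 ≤ m ∧ ∀ n : ℕ, 10 ≤ n → EveryDegree (fun _ : Fin n => m)

theorem every_of {n : ℕ} {w : Fin n → ℕ} (h : Pool.Agent.N141.SG.ExN w) : EveryDegree w := by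
  obtain ⟨F, hF, hF'⟩ := h
  refine ⟨F.map (algebraMap ℚ ℂ), Pool.Agent.H932R3.map_ne_zero_of hF, fun P hP d => ?_⟩
  rw [MvPolynomial.eval_map] at hP
  have h1 := hF' P hP d
  unfold Pool.Agent.H932R3.ExpDim at h1
  unfold dimension vdim forms
  rw [h1]
  have e : ∑ i, ((w i + 1).choose 2 : ℤ) = ((∑ i, (w i + 1).choose 2 : ℕ) : ℤ) := by
    push_cast
    rfl
  rw [e]
  omega

theorem holds_of {m : ℕ} (hm : 1 ≤ m) (h : Pool.Agent.N141.SG.Tgt (m : ℕ)) : Holds m :=
  ⟨hm, fun _ hn => every_of (w := fun _ => m) (Pool.Agent.N141.SG.every h hm hn)⟩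

/-- **Main result.** -/
theorem result : ∀ q : ℕ, 1 ≤ q → ∃ K : ℕ, ∀ M a : ℕ, ∃ m : ℕ, M < m ∧ m ≤ M + K ∧
    m ≡ a [MOD q] ∧ Holds m := by
  intro q hq
  obtain ⟨K, hK⟩ := Pool.Agent.N141.SG.tgt_gaps hq
  refine ⟨K, fun M a => ?_⟩
  obtain ⟨m, h1, h2, h3, h4⟩ := hK M a
  exact ⟨m, h1, h2, h3, holds_of (by omega) h4⟩

end Pool.Agent.Results.MP_6e81d8_ag.BoundedGapsInProgressions
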