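import Mathlib
import Pool.Agent.N141.SG.Near
import Pool.Agent.N141.SG.Seq4

set_option autoImplicit false

/-!
# The SHGH conjecture for prime multiplicities, for all numbers of points and all degrees at once

In every reduced residue class `b` modulo `q`, a positive proportion of the PRIME numbers `p` have the
following property: for EVERY number `n ≥ 10` of general points and EVERY degree `d` the class
`D = d H - p (E 1 + ... + E n)` has `h⁰ (D) = max (0, χ (D))`.
-/

namespace Pool.Agent.Results.MP_70e04f_ag.PrimeMultiplicities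

open MvPolynomial Filter

/-- Forms of degree `d` vanishing to order at least `w i` at the points `(P i 0 : P i 1 : 1)`. -/
noncomputable def forms {n : ℕ} (P : Fin n → Fin 2 → ℂ) (d : ℕ) (w : Fin n → ℕ) :
    Submodule ℂ (MvPolynomial (Fin 3) ℂ) :=
  homogeneousSubmodule (Fin 3) ℂ d ⊓
    Submodule.restrictScalars ℂ
      (⨅ i : Fin n, (Ideal.span {X 0 - C (P i 0) * X 2, X 1 - C (P i 1) * X 2} :
        Ideal (MvPolynomial (Fin 3) ℂ)) ^ (w i))

/-- `h⁰(d H - ∑ w i E i) = max (0, χ(d H - ∑ w i E i))` on the blow-up of the plane at the points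
`P`. -/
def Expected {n : ℕ} (P : Fin n → Fin 2 → ℂ) (d : ℕ) (w : Fin n → ℕ) : Prop :=
  (Module.finrank ℂ ↥(forms P d w) : ℤ) =
    max 0 (((d + 2).choose 2 : ℤ) - ∑ i, ((w i + 1).choose 2 : ℤ))

/-- For points `P` of a nonempty open set (the complement of a hypersurface `F = 0` of the space of
all `P`), `h⁰ = max (0, χ)` for every degree `d`. -/
def EveryDegree {n : ℕ} (w : Fin n → ℕ) : Prop :=
  ∃ F : MvPolynomial (Fin n × Fin 2) ℂ, F ≠ 0 ∧
    ∀ P : Fin n → Fin 2 → ℂ, eval (fun ij : Fin n × Fin 2 => P ij.1 ij.2) F ≠ 0 →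
      ∀ d : ℕ, Expected P d w

/-- The multiplicity `m ≥ 1` is good for every number `n ≥ 10` of points and every degree. -/
def Holds (m : ℕ) : Prop := 1 ≤ m ∧ ∀ n : ℕ, 10 ≤ n → EveryDegree (fun _ : Fin n => m)

theorem every_of {n : ℕ} {w : Fin n → ℕ} (h : Pool.Agent.N141.SG.ExN w) : EveryDegree w := by
  obtain ⟨F, hF, hF'⟩ := h
  refine ⟨F.map (algebraMap ℚ ℂ), Pool.Agent.H932R3.map_ne_zero_of hF, fun P hP d => ?_⟩
  rw [MvPolynomial.eval_map] at hP
  have h1 := hF' P hP d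
  unfold Pool.Agent.H932R3.ExpDim at h1
  unfold Expected forms
  rw [h1]
  have e : ∑ i, ((w i + 1).choose 2 : ℤ) = ((∑ i, (w i + 1).choose 2 : ℕ) : ℤ) := by
    push_cast
    rfl
  rw [e]
  omega

theorem holds_of {m : ℕ} (hm : 1 ≤ m) (h : Pool.Agent.N141.SG.Tgt (m : ℕ)) : Holds m :=
  ⟨hm, fun _ hn => every_of (w := fun _ => m) (Pool.Agent.N141.SG.every h hm hn)⟩

/-- counting in subsets -/
theorem ncard_le {s : Finset ℕ} {p q : ℕ → Prop} (h : ∀ n ∈ s, p n → q n) :
    ({n : ℕ | n ∈ s ∧ p n}.ncard : ℝ) ≤ ({n : ℕ | n ∈ s ∧ q n}.ncard : ℝ) := by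
  have h1 : {n : ℕ | n ∈ s ∧ p n} ⊆ {n : ℕ | n ∈ s ∧ q n} := fun n hn => ⟨hn.1, h n hn.1 hn.2⟩
  exact_mod_cast Set.ncard_le_ncard h1 ((Finset.finite_toSet s).subset fun n hn => hn.1)

/-- The primes `p` of `(N, 2 N]` with `p ≡ b (mod q)`. -/
def primesIn (q b N : ℕ) : Finset ℕ :=
  ((Finset.Ioc N (2 * N)).filter Nat.Prime).filter (fun p => p ≡ b [MOD q])

/-- **Main result.** -/
theorem result : ∀ q b : ℕ, 0 < q → b.Coprime q → ∀ᶠ N : ℕ in atTop,
    1 / 10000 ^ 22 * ((primesIn q b N).card : ℝ) ≤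
      ({p : ℕ | p ∈ primesIn q b N ∧ Holds p}.ncard : ℝ) := by
  intro q b hq hb
  filter_upwards [Pool.Agent.N141.SG.tgt_primes hq hb] with N hN
  refine hN.trans (ncard_le (s := primesIn q b N) fun p hp h => holds_of ?_ h)
  have h1 : N < p := (Finset.mem_Ioc.1 (Finset.mem_filter.1 (Finset.mem_filter.1 hp).1).1).1
  omega

end Pool.Agent.Results.MP_70e04f_ag.PrimeMultiplicities
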