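import Mathlib
import Pool.Agent.N141.SG.One
import Pool.Agent.Results.MP_b56c98_ag.PlaneAllDegrees

set_option autoImplicit false

/-!
# The plane Hilbert functions `H_{2,r,m}` for all numbers `r ≥ 10` of points at once

For a positive proportion of ALL multiplicities `m` the Hilbert functions `H_{2,r,m}` are
`min (binom (d + 2) 2) (r * binom (m + 1) 2)` for EVERY number `r ≥ 10` of points and EVERY degree `d`.
The same holds for the multiplicities `m = ⌊P(t)⌋` of every thin sequence given by a generalised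
polynomial `P` with a non-integral leading exponent, where `t` runs through the integers, and also
through the primes. For every single `r ≥ 10` the proportion of the bad members of such a sequence is
at most `bad r < 1`; `bad r = 0` for `r ≥ 37`, `r = 13`, `r = 21` and the squares.
-/

namespace Pool.Agent.Results.MP_b56c98_ag.PlaneAllNumbersAtOnce

open MvPolynomial Filter
open Pool.Agent.Results.MP_b56c98_ag.PlaneAllDegrees (PlaneFormula formula_of)

/-- `H_{2,r,m}(d) = min (binom (2 + d) 2) (r * binom (2 + m - 1) 2)` for all degrees `d`, for the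
points of one nonempty open set of `r`-tuples. -/
def AllDegrees (r m : ℕ) : Prop := PlaneFormula r m fun _ => True

/-- The multiplicity `m ≥ 1` is settled for every number `r ≥ 10` of points. -/
def Holds (m : ℕ) : Prop := 1 ≤ m ∧ ∀ r : ℕ, 10 ≤ r → AllDegrees r m

/-- The coefficients `a` and the exponents `F` of a generalised polynomial `∑ x ∈ F, a x * t ^ x` with
leading exponent `c > 0`, not an integer, and positive leading coefficient. -/
def Adm (F : Finset ℝ) (a : ℝ → ℝ) (c : ℝ) : Prop :=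
  c ∈ F ∧ (∀ x ∈ F, x ≤ c) ∧ 0 < c ∧ (∀ k : ℕ, c ≠ k) ∧ 0 < a c

/-- The members `⌊∑ x ∈ F, a x * t ^ x⌋` of the thin sequence. -/
noncomputable def mult (F : Finset ℝ) (a : ℝ → ℝ) (t : ℕ) : ℕ := ⌊∑ x ∈ F, a x * (t : ℝ) ^ x⌋₊

open Classical in
/-- The bound for the proportion of the bad multiplicities for `r` points. -/
noncomputable def bad (r : ℕ) : ℝ :=
  if 37 ≤ r ∨ r = 13 ∨ r = 21 ∨ IsSquare r then 0
  else if r = 11 ∨ r = 15 then (√(r : ℝ) - 3) / 6
  else (min (√(r : ℝ) - 3) (2 / 3 + 9 / (4 * √(r : ℝ))) +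
    min (√(r : ℝ) - 3) (2 / 3 + 1 / (4 * √(r : ℝ)))) / 2

theorem allDegrees_of {r m : ℕ} (h : Pool.Agent.N141.SG.Ex r m) : AllDegrees r m := by
  obtain ⟨F, hF, hF'⟩ := h
  exact formula_of ⟨F, hF, fun P hP d _ => hF' P hP d⟩

theorem holds_of {m : ℕ} (hm : 1 ≤ m) (h : Pool.Agent.N141.SG.Tgt (m : ℕ)) : Holds m :=
  ⟨hm, fun _ hr => allDegrees_of (Pool.Agent.N141.SG.every h hm hr)⟩

/-- counting in subsets -/
theorem ncard_le {s : Finset ℕ} {p q : ℕ → Prop} (h : ∀ n ∈ s, p n → q n) :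
    ({n : ℕ | n ∈ s ∧ p n}.ncard : ℝ) ≤ ({n : ℕ | n ∈ s ∧ q n}.ncard : ℝ) := by
  have h1 : {n : ℕ | n ∈ s ∧ p n} ⊆ {n : ℕ | n ∈ s ∧ q n} := fun n hn => ⟨hn.1, h n hn.1 hn.2⟩
  exact_mod_cast Set.ncard_le_ncard h1 ((Finset.finite_toSet s).subset fun n hn => hn.1)

/-- **The plane Hilbert functions for all numbers of points and all degrees at once.** -/
theorem result :
    -- a positive proportion of all multiplicities: all numbers of points and all degrees
    (∀ᶠ N : ℕ in atTop, 1 / 10000 ^ 22 * (N : ℝ) ≤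
      ({m : ℕ | m ∈ Finset.Ioc N (2 * N) ∧ Holds m}.ncard : ℝ)) ∧
    -- thin sequences of multiplicities
    (∀ (F : Finset ℝ) (a : ℝ → ℝ) (c : ℝ), Adm F a c → ∀ᶠ N : ℕ in atTop,
      1 / 10000 ^ 22 * ((Finset.Ioc N (2 * N)).card : ℝ) ≤
        ({t : ℕ | t ∈ Finset.Ioc N (2 * N) ∧ Holds (mult F a t)}.ncard : ℝ) ∧
      1 / 10000 ^ 22 * (((Finset.Ioc N (2 * N)).filter Nat.Prime).card : ℝ) ≤
        ({t : ℕ | t ∈ (Finset.Ioc N (2 * N)).filter Nat.Prime ∧ Holds (mult F a t)}.ncard : ℝ)) ∧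
    -- one number of points
    (∀ r : ℕ, 10 ≤ r → ∀ (F : Finset ℝ) (a : ℝ → ℝ) (c : ℝ), Adm F a c → ∀ δ : ℝ, 0 < δ →
      ∀ᶠ N : ℕ in atTop,
      ({t : ℕ | t ∈ Finset.Ioc N (2 * N) ∧ ¬ AllDegrees r (mult F a t)}.ncard : ℝ) ≤
        (bad r + δ) * ((Finset.Ioc N (2 * N)).card : ℝ) ∧
      ({t : ℕ | t ∈ (Finset.Ioc N (2 * N)).filter Nat.Prime ∧
          ¬ AllDegrees r (mult F a t)}.ncard : ℝ) ≤
        (bad r + δ) * (((Finset.Ioc N (2 * N)).filter Nat.Prime).card : ℝ)) ∧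
    (∀ r : ℕ, 10 ≤ r → bad r < 1) ∧
    (bad 10 < 0.163 ∧ bad 11 < 0.053 ∧ bad 12 < 0.465 ∧ bad 14 < 0.738 ∧ bad 15 < 0.146) := by
  refine ⟨?_, fun F a c h => ?_, fun r hr F a c h δ hδ => ?_, fun r hr =>
    Pool.Agent.N141.SG.badU_lt hr, Pool.Agent.N141.SG.badU_vals⟩
  · filter_upwards [Pool.Agent.N141.SG.tgt_ints] with N hN
    exact hN.trans (ncard_le fun m hm h => holds_of (by
      have := (Finset.mem_Ioc.1 hm).1
      omega) h)
  · filter_upwards [Pool.Agent.N141.SG.tgt_thin (F := F) (a := a) (c := c) h] with N hN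
    exact ⟨hN.1.trans (ncard_le fun t _ ht => holds_of ht.1 ht.2),
      hN.2.trans (ncard_le fun t _ ht => holds_of ht.1 ht.2)⟩
  · filter_upwards [Pool.Agent.N141.SG.one hr (F := F) (a := a) (c := c) h hδ] with N hN
    exact ⟨(ncard_le fun t _ ht h1 => ht (allDegrees_of h1)).trans hN.1,
      (ncard_le fun t _ ht h1 => ht (allDegrees_of h1)).trans hN.2⟩

end Pool.Agent.Results.MP_b56c98_ag.PlaneAllNumbersAtOnce
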